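import Pool.Agent.V1171.TP.Fin

set_option autoImplicit false

/-! Finite rank products of two Toeplitz operators, one with radial symbol, on the polyanalytic
Bergman spaces of the disc. -/

namespace Pool.Agent.Results.MP_119a45_an.FiniteRankProducts

open MeasureTheory
open scoped ComplexConjugate ENNReal

/-- Normalised area measure on the unit disc. -/
noncomputable def dA : Measure ℂ :=
  (ENNReal.ofReal Real.pi)⁻¹ • volume.restrict (Metric.ball (0:ℂ) 1)

/-- The Hilbert space `L²(𝔻, dA)`. -/
def L2 : Type := Lp ℂ 2 dA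

/-- The space `L^∞(𝔻)`. -/
def Linf : Type := Lp ℂ ∞ dA

noncomputable instance : NormedAddCommGroup L2 :=
  @Lp.instNormedAddCommGroup ℂ ℂ _ 2 dA _ _

noncomputable instance : NormedAddCommGroup Linf :=
  @Lp.instNormedAddCommGroup ℂ ℂ _ ∞ dA _ _

noncomputable instance : InnerProductSpace ℂ L2 :=
  (MeasureTheory.L2.innerProductSpace : InnerProductSpace ℂ (Lp ℂ 2 dA))

instance : CompleteSpace L2 := inferInstanceAs (CompleteSpace (Lp ℂ 2 dA))

/-- The function (a representative) of an element of `L²`. -/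
noncomputable def L2.fn (h : L2) : ℂ → ℂ := ⇑(show Lp ℂ 2 dA from h)

/-- The function (a representative) of an element of `L^∞`. -/
noncomputable def Linf.fn (f : Linf) : ℂ → ℂ := ⇑(show Lp ℂ ∞ dA from f)

/-- The product `f h ∈ L²` of `f ∈ L^∞` and `h ∈ L²`. -/
noncomputable def mult (f : Linf) (h : L2) : L2 :=
  ((show Lp ℂ ∞ dA from f) • (show Lp ℂ 2 dA from h) : Lp ℂ 2 dA)

/-- The polyanalytic Bergman space `A²_n`: the closed linear span in `L²(𝔻)` of the functions
`z^a * conj z^b` with `b < n`. -/
noncomputable def polyBergman (n : ℕ) : Submodule ℂ L2 :=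
  (Submodule.span ℂ {h : L2 | ∃ a b : ℕ, b < n ∧
    h.fn =ᵐ[dA] fun z => z ^ a * conj z ^ b}).topologicalClosure

instance (n : ℕ) : CompleteSpace (polyBergman n) := by
  unfold polyBergman
  infer_instance

/-- Orthogonal projection of a Hilbert space onto a closed subspace. -/
noncomputable def proj {H : Type} [NormedAddCommGroup H] [InnerProductSpace ℂ H]
    (A : Submodule ℂ H) [CompleteSpace A] (x : H) : H := A.starProjection x

/-- The Toeplitz operator `T_f h = P_n (f h)`; on `A²_n` one uses it for `h ∈ A²_n`. -/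
noncomputable def toeplitz (n : ℕ) (f : Linf) (h : L2) : L2 := proj (polyBergman n) (mult f h)

/-- `f(z)` depends only on `|z|`, almost everywhere. -/
def IsRadial (f : Linf) : Prop := ∃ W : ℝ → ℂ, f.fn =ᵐ[dA] fun z => W ‖z‖

/-- The map `T` has finite rank on the subspace `A`: it maps `A` to a finite dimensional space. -/
def FiniteRankOn {H : Type} [AddCommGroup H] [Module ℂ H] (A : Submodule ℂ H) (T : H → H) : Prop :=
  ∃ V : Submodule ℂ H, FiniteDimensional ℂ V ∧ ∀ h ∈ A, T h ∈ V

theorem result (n : ℕ) (hn : 1 ≤ n) (f g : Linf) (hrad : IsRadial f ∨ IsRadial g)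
    (hfin : FiniteRankOn (polyBergman n) fun h => toeplitz n f (toeplitz n g h)) :
    f = 0 ∨ g = 0 := by
  obtain ⟨V, hV, hTV⟩ := hfin
  exact V1171.TP.final3 n hn f g hrad V hV hTV

end Pool.Agent.Results.MP_119a45_an.FiniteRankProducts
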